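import Pool.Agent.H.MP_bb4c62_an.helper6.NData

/-!
The dichotomy of types for nonlinear data on isotropic pairs.
-/

namespace Pool.Agent.H.MP_bb4c62_an.helper6.NL
open Complex Metric Set Filter Topology
open Pool.Agent.H.MP_bb4c62_an.helper6.Perturb
open Pool.Agent.H.MP_bb4c62_an.helper6.Gadgets
variable {X : Type*} [NormedAddCommGroup X] [NormedSpace ℂ X]
variable {Y : Type*} [NormedAddCommGroup Y] [NormedSpace ℂ Y]

theorem rank_diff {y1 y2 z : Y} {g1 g2 h : Y →L[ℂ] ℂ} (hy1 : y1 ≠ 0) (hg1 : g1 ≠ 0)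
    (hs : ten y1 g1 - ten y2 g2 = ten z h) :
    (∃ c : ℂ, y2 = c • y1) ∨ (∃ c : ℂ, g2 = c • g1) := by
  have h1 : ten y1 g1 + ten ((-1 : ℂ) • y2) g2 = ten z h := by
    rw [ten_smul_left, neg_one_smul, ← sub_eq_add_neg]; exact hs
  rcases rank_sum hy1 hg1 h1 with ⟨c, hc⟩ | h2
  · left
    refine ⟨-c, ?_⟩
    rw [neg_one_smul] at hc
    rw [neg_smul, ← hc, neg_neg]
  · exact Or.inr h2

/-- families of operators of rank at most one with all differences of rank at most one -/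
theorem rank_one_family {I : Type*} [Nontrivial Y] (F : I → (Y →L[ℂ] Y))
    (hF : ∀ i, ∃ (y : Y) (g : Y →L[ℂ] ℂ), F i = ten y g)
    (hD : ∀ i j, ∃ (y : Y) (g : Y →L[ℂ] ℂ), F i - F j = ten y g) :
    (∃ y : Y, y ≠ 0 ∧ ∀ i, ∃ g : Y →L[ℂ] ℂ, F i = ten y g) ∨
    (∃ g : Y →L[ℂ] ℂ, g ≠ 0 ∧ ∀ i, ∃ y : Y, F i = ten y g) := by
  by_cases h0 : ∀ w, F w = 0
  · left
    obtain ⟨y, hy⟩ := exists_ne (0 : Y)
    refine ⟨y, hy, fun w => ⟨0, ?_⟩⟩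
    rw [h0 w]
    exact (ten_eq_zero_iff.mpr (Or.inr rfl)).symm
  push Not at h0
  obtain ⟨w1, hw1⟩ := h0
  obtain ⟨y1, g1, h1⟩ := hF w1
  have hyg : y1 ≠ 0 ∧ g1 ≠ 0 := by
    rw [h1] at hw1
    rw [Ne, ten_eq_zero_iff, not_or] at hw1
    exact hw1
  obtain ⟨hy1, hg1⟩ := hyg
  by_cases hall : ∀ w, ∃ g : Y →L[ℂ] ℂ, F w = ten y1 g
  · exact Or.inl ⟨y1, hy1, hall⟩
  push Not at hall
  obtain ⟨w2, hw2⟩ := hall
  obtain ⟨y2, g2, h2⟩ := hF w2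
  have hy21 : ¬ ∃ c : ℂ, y2 = c • y1 := by
    rintro ⟨c, hc⟩
    apply hw2 (c • g2)
    rw [h2, hc, ten_smul_left, ten_smul_right]
  have hy2 : y2 ≠ 0 := by
    rintro rfl
    exact hy21 ⟨0, by simp⟩
  have hg2 : g2 ≠ 0 := by
    rintro rfl
    apply hw2 0
    rw [h2, ten_eq_zero_iff.mpr (Or.inr rfl), ten_eq_zero_iff.mpr (Or.inr rfl)]
  obtain ⟨z, h, hzh⟩ := hD w1 w2
  rw [h1, h2] at hzh
  obtain ⟨c, hc⟩ := (rank_diff hy1 hg1 hzh).resolve_left hy21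
  have hc0 : c ≠ 0 := by
    intro hc0
    apply hg2
    rw [hc, hc0]; ext w; simp
  right
  refine ⟨g1, hg1, fun w => ?_⟩
  by_cases hLw : F w = 0
  · exact ⟨0, by rw [hLw]; exact (ten_eq_zero_iff.mpr (Or.inl rfl)).symm⟩
  obtain ⟨y3, g3, h3⟩ := hF w
  have hy3 : y3 ≠ 0 := by
    rintro rfl
    exact hLw (by rw [h3]; exact ten_eq_zero_iff.mpr (Or.inl rfl))
  by_cases hg3 : ∃ c : ℂ, g3 = c • g1
  · obtain ⟨d, hd⟩ := hg3
    refine ⟨d • y3, ?_⟩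
    rw [h3, hd, ten_smul_left, ten_smul_right]
  · exfalso
    have e1 : ∃ c : ℂ, y3 = c • y1 := by
      obtain ⟨z, h, hzh⟩ := hD w1 w
      rw [h1, h3] at hzh
      exact (rank_diff hy1 hg1 hzh).resolve_right hg3
    have e2 : ∃ c : ℂ, y3 = c • y2 := by
      obtain ⟨z, h, hzh⟩ := hD w2 w
      rw [h2, h3] at hzh
      refine (rank_diff hy2 hg2 hzh).resolve_right ?_
      rintro ⟨d, hd⟩
      apply hg3
      refine ⟨d * c, ?_⟩
      rw [hd, hc, smul_smul]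
    obtain ⟨a, ha⟩ := e1
    obtain ⟨b, hb⟩ := e2
    have hb0 : b ≠ 0 := by
      rintro rfl
      exact hy3 (by rw [hb, zero_smul])
    apply hy21
    refine ⟨b⁻¹ * a, ?_⟩
    rw [mul_smul, ← ha, hb, smul_smul, inv_mul_cancel₀ hb0, one_smul]

variable {E E' : Type*} [AddCommGroup E] [Module ℂ E] [AddCommGroup E'] [Module ℂ E']
variable {P : E →ₗ[ℂ] E' →ₗ[ℂ] ℂ} {B : E → E' → (Y →L[ℂ] Y)}

theorem NData.nontrivial (D : NData P B) : Nontrivial Y := by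
  by_contra hcon
  rw [not_nontrivial_iff_subsingleton] at hcon
  obtain ⟨v, hv⟩ := D.dim
  obtain ⟨f, hf, h1, _⟩ := D.d3 (v 0) (v 0)
  apply D.ne (v 0) f h1 (hv.ne_zero 0) hf
  ext w
  exact Subsingleton.elim _ _

theorem NData.partner (D : NData P B) (x : E) (f : E') (hx0 : x ≠ 0) :
    ∃ x', P x' f = 0 ∧ ¬ ∃ c : ℂ, x' = c • x := by
  obtain ⟨h, hh⟩ : ∃ h, P x h ≠ 0 := by
    by_contra hcon
    push Not at hcon
    have h1 := D.sepE 0 0 x (fun f _ _ => hcon f)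
    apply hx0
    simpa using h1
  obtain ⟨x', hx', h1, h2⟩ := D.d3' f h
  refine ⟨x', h1, ?_⟩
  rintro ⟨c, rfl⟩
  rw [map_smul, LinearMap.smul_apply, smul_eq_mul] at h2
  have hc : c = 0 := (mul_eq_zero.mp h2).resolve_right hh
  apply hx'
  rw [hc, zero_smul]

theorem NData.exclA (D : NData P B) (x : E) (f : E') (hx0 : x ≠ 0) (hf0 : f ≠ 0) (hP : P x f = 0)
    (hTx' : ∃ g : Y →L[ℂ] ℂ, g ≠ 0 ∧ ∀ f, P x f = 0 → ∃ y : Y, B x f = ten y g)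
    (hTf' : ∃ g : Y →L[ℂ] ℂ, g ≠ 0 ∧ ∀ x, P x f = 0 → ∃ y : Y, B x f = ten y g) : False := by
  obtain ⟨gx, hgx, hTx⟩ := hTx'
  obtain ⟨gf, hgf, hTf⟩ := hTf'
  obtain ⟨x', hx'P, hx'⟩ := D.partner x f hx0
  obtain ⟨f', hf'P, hf'⟩ := D.flip.partner f x hf0
  have hf'P : P x f' = 0 := hf'P
  obtain ⟨y1, hy1⟩ := hTx f hP
  obtain ⟨y2, hy2⟩ := hTf x hP
  obtain ⟨y3, hy3⟩ := hTx f' hf'P
  obtain ⟨y4, hy4⟩ := hTf x' hx'P
  -- `gx` and `gf` are proportional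
  have hne := D.ne x f hP hx0 hf0
  have hprop : ∃ c : ℂ, gx = c • gf := by
    have hy10 : y1 ≠ 0 := by
      rintro rfl
      apply hne; rw [hy1]; exact ten_eq_zero_iff.mpr (Or.inl rfl)
    obtain ⟨η, hη⟩ := SeparatingDual.exists_eq_one (R := ℂ) hy10
    refine ⟨η y2, ?_⟩
    ext w
    have h1 : η (ten y1 gx w) = η (ten y2 gf w) := by rw [← hy1, hy2]
    rw [ten_apply, ten_apply, map_smul, map_smul, hη, smul_eq_mul, smul_eq_mul, mul_one] at h1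
    show gx w = η y2 * gf w
    rw [h1, mul_comm]
  obtain ⟨c, hc⟩ := hprop
  apply D.r2 x' x f f' hx'P hf'P (by rintro rfl; exact hx' ⟨0, by simp⟩) (by
    rintro ⟨d, hd⟩
    apply hx'
    have hd0 : d ≠ 0 := by
      rintro rfl
      rw [zero_smul] at hd
      exact hx0 hd
    refine ⟨d⁻¹, ?_⟩
    rw [hd, smul_smul, inv_mul_cancel₀ hd0, one_smul]) hf0 hf'
  have hn4 := D.n1 x' f hx'P
  have hn3 := D.n1 x f' hf'P
  rw [hy4, n1_ten_iff] at hn4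
  rw [hy3, n1_ten_iff, hc] at hn3
  have e1 : ten y4 gf - ten y3 (c • gf) = ten (y4 + (-c) • y3) gf := by
    rw [ten_add_right, ten_smul_left, ten_smul_right, neg_smul, ← sub_eq_add_neg]
  rw [hy4, hy3, hc, e1, n1_ten_iff, map_add, hn4, map_smul, smul_eq_mul, zero_add]
  have hn3' : c * gf y3 = 0 := hn3
  rw [neg_mul, hn3', neg_zero]

theorem NData.exclB (D : NData P B) (x : E) (f : E') (hx0 : x ≠ 0) (hf0 : f ≠ 0) (hP : P x f = 0)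
    (hTx' : ∃ y : Y, y ≠ 0 ∧ ∀ f, P x f = 0 → ∃ g : Y →L[ℂ] ℂ, B x f = ten y g)
    (hTf' : ∃ y : Y, y ≠ 0 ∧ ∀ x, P x f = 0 → ∃ g : Y →L[ℂ] ℂ, B x f = ten y g) : False := by
  obtain ⟨yx, hyx, hTx⟩ := hTx'
  obtain ⟨yf, hyf, hTf⟩ := hTf'
  obtain ⟨x', hx'P, hx'⟩ := D.partner x f hx0
  obtain ⟨f', hf'P, hf'⟩ := D.flip.partner f x hf0
  have hf'P : P x f' = 0 := hf'P
  obtain ⟨g1, hg1⟩ := hTx f hP
  obtain ⟨g2, hg2⟩ := hTf x hP
  obtain ⟨g3, hg3⟩ := hTx f' hf'P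
  obtain ⟨g4, hg4⟩ := hTf x' hx'P
  have hne := D.ne x f hP hx0 hf0
  have hprop : ∃ c : ℂ, yx = c • yf := by
    have hg10 : g1 ≠ 0 := by
      rintro rfl
      apply hne; rw [hg1]; exact ten_eq_zero_iff.mpr (Or.inr rfl)
    obtain ⟨w, hw⟩ := exists_apply_one hg10
    refine ⟨g2 w, ?_⟩
    have h1 : ten yx g1 w = ten yf g2 w := by rw [← hg1, hg2]
    rw [ten_apply, ten_apply, hw, one_smul] at h1
    exact h1
  obtain ⟨c, hc⟩ := hprop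
  apply D.r2 x' x f f' hx'P hf'P (by rintro rfl; exact hx' ⟨0, by simp⟩) (by
    rintro ⟨d, hd⟩
    apply hx'
    have hd0 : d ≠ 0 := by
      rintro rfl
      rw [zero_smul] at hd
      exact hx0 hd
    refine ⟨d⁻¹, ?_⟩
    rw [hd, smul_smul, inv_mul_cancel₀ hd0, one_smul]) hf0 hf'
  have hn4 := D.n1 x' f hx'P
  have hn3 := D.n1 x f' hf'P
  rw [hg4, n1_ten_iff] at hn4
  rw [hg3, n1_ten_iff, hc] at hn3
  have e1 : ten yf g4 - ten (c • yf) g3 = ten yf (g4 + (-c) • g3) := by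
    rw [ten_add_right', ten_smul_left, ten_smul_right, neg_smul, ← sub_eq_add_neg]
  rw [hg4, hg3, hc, e1, n1_ten_iff]
  show g4 yf + (-c) * g3 yf = 0
  rw [map_smul, smul_eq_mul] at hn3
  rw [neg_mul, hn4, hn3, neg_zero, add_zero]

theorem NData.dichotomy (D : NData P B) : TypeI P B ∨ TypeI P.flip (fun f x => B x f) := by
  have _ := D.nontrivial
  -- the alternatives for a single vector or functional
  have hx : ∀ x, (∃ y : Y, y ≠ 0 ∧ ∀ f, P x f = 0 → ∃ g : Y →L[ℂ] ℂ, B x f = ten y g) ∨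
      (∃ g : Y →L[ℂ] ℂ, g ≠ 0 ∧ ∀ f, P x f = 0 → ∃ y : Y, B x f = ten y g) := by
    intro x
    have := rank_one_family (I := {f // P x f = 0}) (fun f => B x f.1) (by
      rintro ⟨f, hf⟩
      obtain ⟨y, g, -, h⟩ := D.n1 x f hf
      exact ⟨y, g, h⟩) (by
      rintro ⟨f, hf⟩ ⟨f', hf'⟩
      obtain ⟨y, g, -, h⟩ := D.dl x f f' hf hf'
      exact ⟨y, g, h⟩)
    rcases this with ⟨y, hy, h⟩ | ⟨g, hg, h⟩
    · exact Or.inl ⟨y, hy, fun f hf => h ⟨f, hf⟩⟩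
    · exact Or.inr ⟨g, hg, fun f hf => h ⟨f, hf⟩⟩
  have hf : ∀ f, (∃ y : Y, y ≠ 0 ∧ ∀ x, P x f = 0 → ∃ g : Y →L[ℂ] ℂ, B x f = ten y g) ∨
      (∃ g : Y →L[ℂ] ℂ, g ≠ 0 ∧ ∀ x, P x f = 0 → ∃ y : Y, B x f = ten y g) := by
    intro f
    have := rank_one_family (I := {x // P x f = 0}) (fun x => B x.1 f) (by
      rintro ⟨x, hx⟩
      obtain ⟨y, g, -, h⟩ := D.n1 x f hx
      exact ⟨y, g, h⟩) (by
      rintro ⟨x, hx⟩ ⟨x', hx'⟩
      obtain ⟨y, g, -, h⟩ := D.dr x x' f hx hx'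
      exact ⟨y, g, h⟩)
    rcases this with ⟨y, hy, h⟩ | ⟨g, hg, h⟩
    · exact Or.inl ⟨y, hy, fun x hx => h ⟨x, hx⟩⟩
    · exact Or.inr ⟨g, hg, fun x hx => h ⟨x, hx⟩⟩
  by_cases hex : ∃ x, x ≠ 0 ∧ (∃ y : Y, y ≠ 0 ∧ ∀ f, P x f = 0 → ∃ g : Y →L[ℂ] ℂ,
      B x f = ten y g)
  · left
    obtain ⟨x0, hx00, hTx0⟩ := hex
    have hTL : ∀ x, x ≠ 0 → ∃ y : Y, y ≠ 0 ∧ ∀ f, P x f = 0 → ∃ g : Y →L[ℂ] ℂ,
        B x f = ten y g := by
      intro x hx0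
      rcases hx x with h | h
      · exact h
      · exfalso
        obtain ⟨f, hf0, hf1, hf2'⟩ := D.d3 x x0
        rcases hf f with h' | h'
        · exact D.exclB x0 f hx00 hf0 hf2' hTx0 h'
        · exact D.exclA x f hx0 hf0 hf1 h h'
    refine ⟨hTL, ?_⟩
    intro f hf0
    rcases hf f with h | h
    · exfalso
      obtain ⟨x, hx0, hP, _⟩ := D.d3' f f
      exact D.exclB x f hx0 hf0 hP (hTL x hx0) h
    · exact h
  · right
    push Not at hex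
    have hTR : ∀ x, x ≠ 0 → ∃ g : Y →L[ℂ] ℂ, g ≠ 0 ∧ ∀ f, P x f = 0 → ∃ y : Y,
        B x f = ten y g := by
      intro x hx0
      rcases hx x with ⟨y, hy, h⟩ | h
      · exfalso
        obtain ⟨f, hf1, hf2⟩ := hex x hx0 y hy
        obtain ⟨g, hg⟩ := h f hf1
        exact hf2 g hg
      · exact h
    refine ⟨?_, ?_⟩
    · intro f hf0
      rcases hf f with h | h
      · exact h
      · exfalso
        obtain ⟨x, hx0, hP, _⟩ := D.d3' f f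
        exact D.exclA x f hx0 hf0 hP (hTR x hx0) h
    · intro x hx0
      exact hTR x hx0

end Pool.Agent.H.MP_bb4c62_an.helper6.NL
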